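import Mathlib

set_option autoImplicit false

/-!
Radial homeomorphisms of a real normed space: they preserve every ray from the centre `c`, are the
identity outside the ball of radius `R` and carry the sphere of radius `a` onto that of radius `b`.
-/

namespace Pool.Agent.R147.Radial

open Set

variable {E : Type*} [NormedAddCommGroup E] [NormedSpace ℝ E]

/-- the piecewise linear profile -/
noncomputable def psi (R a b r : ℝ) : ℝ :=
  b / a * min r a + (R - b) / (R - a) * (min (max r a) R - a) + (max r R - R)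

theorem psi_small {R a b r : ℝ} (haR : a < R) (hr : r ≤ a) : psi R a b r = b / a * r := by
  unfold psi
  rw [min_eq_left hr, max_eq_right hr, min_eq_left haR.le, max_eq_right (hr.trans haR.le)]
  ring

theorem psi_mid {R a b r : ℝ} (ha : 0 < a) (h1 : a ≤ r) (h2 : r ≤ R) :
    psi R a b r = b + (R - b) / (R - a) * (r - a) := by
  unfold psi
  rw [min_eq_right h1, max_eq_left h1, min_eq_left h2, max_eq_right h2]
  field_simp
  ring

theorem psi_large {R a b r : ℝ} (ha : 0 < a) (haR : a < R) (h : R ≤ r) : psi R a b r = r := by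
  unfold psi
  rw [min_eq_right (haR.le.trans h), max_eq_left (haR.le.trans h), min_eq_right h, max_eq_left h]
  have : R - a ≠ 0 := by linarith
  field_simp
  ring

theorem psi_mono {R a b : ℝ} (ha : 0 < a) (haR : a < R) (hb : 0 < b) (hbR : b < R) :
    Monotone (psi R a b) := by
  intro r s h
  unfold psi
  have h1 : 0 ≤ b / a := by positivity
  have h2 : 0 ≤ (R - b) / (R - a) := div_nonneg (by linarith) (by linarith)
  have e1 := mul_le_mul_of_nonneg_left (min_le_min_right a h) h1
  have e2 := mul_le_mul_of_nonneg_left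
    (sub_le_sub_right (min_le_min_right R (max_le_max_right a h)) a) h2
  have e3 := max_le_max_right R h
  linarith

theorem psi_continuous (R a b : ℝ) : Continuous (psi R a b) := by
  unfold psi
  fun_prop

theorem psi_inv {R a b r : ℝ} (ha : 0 < a) (haR : a < R) (hb : 0 < b) (hbR : b < R)
    (hr : 0 ≤ r) : psi R b a (psi R a b r) = r := by
  rcases le_total r a with h | h
  · rw [psi_small haR h]
    have h1 : b / a * r ≤ b := by
      have := mul_le_mul_of_nonneg_left h (show 0 ≤ b / a by positivity)
      rwa [div_mul_cancel₀ _ ha.ne'] at this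
    rw [psi_small hbR h1]
    field_simp
  · rcases le_total r R with h2 | h2
    · rw [psi_mid ha h h2]
      have hRa : 0 < R - a := by linarith
      have hRb : 0 < R - b := by linarith
      have e1 : b ≤ b + (R - b) / (R - a) * (r - a) := by
        have : 0 ≤ (R - b) / (R - a) * (r - a) :=
          mul_nonneg (by positivity) (by linarith)
        linarith
      have e2 : b + (R - b) / (R - a) * (r - a) ≤ R := by
        have : (R - b) / (R - a) * (r - a) ≤ R - b := by
          rw [div_mul_eq_mul_div, div_le_iff₀ hRa]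
          exact mul_le_mul_of_nonneg_left (by linarith) hRb.le
        linarith
      rw [psi_mid hb e1 e2]
      field_simp
      ring
    · rw [psi_large ha haR h2, psi_large hb hbR h2]

/-- the factor -/
noncomputable def gg (R a b r : ℝ) : ℝ := psi R a b (max r a) / max r a

theorem gg_mul {R a b r : ℝ} (ha : 0 < a) (haR : a < R) :
    gg R a b r * r = psi R a b r := by
  unfold gg
  rcases le_total r a with h | h
  · rw [max_eq_right h, psi_small haR le_rfl, psi_small haR h]
    field_simp
  · rw [max_eq_left h, div_mul_cancel₀]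
    exact (ha.trans_le h).ne'

theorem gg_pos {R a b r : ℝ} (ha : 0 < a) (haR : a < R) (hb : 0 < b) (hbR : b < R) :
    0 < gg R a b r := by
  unfold gg
  have h1 : 0 < max r a := lt_max_of_lt_right ha
  have h2 : psi R a b a ≤ psi R a b (max r a) := psi_mono ha haR hb hbR (le_max_right _ _)
  rw [psi_small haR le_rfl, div_mul_cancel₀ _ ha.ne'] at h2
  exact div_pos (hb.trans_le h2) h1

theorem gg_continuous {R a b : ℝ} (ha : 0 < a) : Continuous (gg R a b) := by
  unfold gg
  refine Continuous.div ((psi_continuous R a b).comp (by fun_prop)) (by fun_prop) ?_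
  intro r
  exact (lt_max_of_lt_right ha).ne'

/-- the radial map -/
noncomputable def rad (c : E) (R a b : ℝ) (p : E) : E := c + gg R a b ‖p - c‖ • (p - c)

theorem rad_continuous (c : E) {R a b : ℝ} (ha : 0 < a) : Continuous (rad c R a b) := by
  unfold rad
  have := gg_continuous (R := R) (b := b) ha
  fun_prop

theorem norm_rad_sub (c : E) {R a b : ℝ} (ha : 0 < a) (haR : a < R) (hb : 0 < b) (hbR : b < R)
    (p : E) : ‖rad c R a b p - c‖ = psi R a b ‖p - c‖ := by
  unfold rad
  rw [add_sub_cancel_left, norm_smul, Real.norm_of_nonneg (gg_pos ha haR hb hbR).le, gg_mul ha haR]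

theorem rad_inv (c : E) {R a b : ℝ} (ha : 0 < a) (haR : a < R) (hb : 0 < b) (hbR : b < R)
    (p : E) : rad c R b a (rad c R a b p) = p := by
  rcases eq_or_ne p c with h | h
  · subst h
    simp [rad]
  · have hp : 0 < ‖p - c‖ := norm_pos_iff.mpr (sub_ne_zero.mpr h)
    have e := norm_rad_sub c ha haR hb hbR p
    have e2 : rad c R a b p - c = gg R a b ‖p - c‖ • (p - c) := by
      unfold rad; rw [add_sub_cancel_left]
    have e3 : rad c R b a (rad c R a b p) =
        c + gg R b a ‖rad c R a b p - c‖ • (rad c R a b p - c) := rfl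
    rw [e3, e, e2, smul_smul]
    have key : gg R b a (psi R a b ‖p - c‖) * gg R a b ‖p - c‖ = 1 := by
      have h1 := gg_mul (r := ‖p - c‖) (b := b) ha haR
      have h2 := gg_mul (r := psi R a b ‖p - c‖) (b := a) hb hbR
      rw [psi_inv ha haR hb hbR hp.le, ← h1] at h2
      rw [← h1]
      have : (gg R b a (gg R a b ‖p - c‖ * ‖p - c‖) * gg R a b ‖p - c‖) * ‖p - c‖ =
        1 * ‖p - c‖ := by rw [one_mul]; linarith
      exact mul_right_cancel₀ hp.ne' this
    rw [key, one_smul]
    abel

/-- the radial homeomorphism -/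
noncomputable def radHomeo (c : E) (R a b : ℝ) (ha : 0 < a) (haR : a < R) (hb : 0 < b)
    (hbR : b < R) : E ≃ₜ E where
  toFun := rad c R a b
  invFun := rad c R b a
  left_inv := rad_inv c ha haR hb hbR
  right_inv := rad_inv c hb hbR ha haR
  continuous_toFun := rad_continuous c ha
  continuous_invFun := rad_continuous c hb

theorem rad_far (c : E) {R a b : ℝ} (ha : 0 < a) (haR : a < R) {p : E} (h : R ≤ ‖p - c‖) :
    rad c R a b p = p := by
  unfold rad
  have h0 : 0 < ‖p - c‖ := (ha.trans haR).trans_le h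
  have h1 := gg_mul (r := ‖p - c‖) (b := b) ha haR
  rw [psi_large ha haR h] at h1
  have h2 : gg R a b ‖p - c‖ = 1 := mul_right_cancel₀ h0.ne' (by rw [h1, one_mul])
  rw [h2, one_smul]
  abel

theorem rad_center (c : E) {R a b : ℝ} : rad c R a b c = c := by
  simp [rad]

theorem rad_segment_sub (c : E) {R a b : ℝ} (ha : 0 < a) (haR : a < R) (hb : 0 < b)
    (hbR : b < R) (v : E) :
    rad c R a b '' segment ℝ c (c + v) ⊆ segment ℝ c (c + gg R a b ‖v‖ • v) := by
  rintro _ ⟨p, hp, rfl⟩
  rw [segment_eq_image'] at hp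
  obtain ⟨t, ⟨ht0, ht1⟩, rfl⟩ := hp
  rw [add_sub_cancel_left]
  have e : rad c R a b (c + t • v) = c + (gg R a b (t * ‖v‖) * t) • v := by
    unfold rad
    rw [add_sub_cancel_left, norm_smul, Real.norm_of_nonneg ht0, smul_smul]
  rw [show (fun θ : ℝ => c + θ • v) t = c + t • v from rfl, e, segment_eq_image']
  rcases eq_or_ne v 0 with h | h
  · subst h
    exact ⟨0, ⟨le_rfl, zero_le_one⟩, by simp⟩
  · have hv : 0 < ‖v‖ := norm_pos_iff.mpr h
    have hg := gg_pos (r := ‖v‖) ha haR hb hbR
    have hg2 := gg_pos (r := t * ‖v‖) ha haR hb hbR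
    refine ⟨gg R a b (t * ‖v‖) * t / gg R a b ‖v‖, ⟨by positivity, ?_⟩, ?_⟩
    · rw [div_le_one hg]
      have h1 : psi R a b (t * ‖v‖) ≤ psi R a b ‖v‖ :=
        psi_mono ha haR hb hbR (mul_le_of_le_one_left hv.le ht1)
      rw [← gg_mul ha haR, ← gg_mul ha haR, ← mul_assoc] at h1
      exact le_of_mul_le_mul_right h1 hv
    · simp only [add_sub_cancel_left, smul_smul]
      rw [div_mul_cancel₀ _ hg.ne']

theorem gg_inv_mul {R a b r : ℝ} (ha : 0 < a) (haR : a < R) (hb : 0 < b) (hbR : b < R)
    (hr : 0 < r) : gg R b a (gg R a b r * r) * gg R a b r = 1 := by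
  have h1 := gg_mul (r := r) (b := b) ha haR
  have h2 := gg_mul (r := psi R a b r) (b := a) hb hbR
  rw [psi_inv ha haR hb hbR hr.le, ← h1] at h2
  have : (gg R b a (gg R a b r * r) * gg R a b r) * r = 1 * r := by rw [one_mul]; linarith
  exact mul_right_cancel₀ hr.ne' this

theorem radHomeo_segment (c : E) {R a b : ℝ} (ha : 0 < a) (haR : a < R) (hb : 0 < b)
    (hbR : b < R) (v : E) :
    radHomeo c R a b ha haR hb hbR '' segment ℝ c (c + v) =
      segment ℝ c (c + gg R a b ‖v‖ • v) := by
  apply Subset.antisymm (rad_segment_sub c ha haR hb hbR v)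
  intro q hq
  have h := rad_segment_sub c hb hbR ha haR (gg R a b ‖v‖ • v) ⟨q, hq, rfl⟩
  refine ⟨rad c R b a q, ?_, rad_inv c hb hbR ha haR q⟩
  rcases eq_or_ne v 0 with h0 | h0
  · subst h0
    simpa using h
  · have hv : 0 < ‖v‖ := norm_pos_iff.mpr h0
    rw [norm_smul, Real.norm_of_nonneg (gg_pos ha haR hb hbR).le, smul_smul,
      gg_inv_mul ha haR hb hbR hv, one_smul] at h
    exact h

theorem gg_large {R a b r : ℝ} (ha : 0 < a) (haR : a < R) (h : R ≤ r) : gg R a b r = 1 := by
  have h1 := gg_mul (r := r) (b := b) ha haR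
  rw [psi_large ha haR h] at h1
  have h0 : 0 < r := (ha.trans haR).trans_le h
  exact mul_right_cancel₀ h0.ne' (by rw [h1, one_mul])

theorem gg_at {R a b : ℝ} (haR : a < R) (ha : 0 < a) : gg R a b a = b / a := by
  unfold gg
  rw [max_self, psi_small haR le_rfl, div_mul_cancel₀ _ ha.ne']

theorem radHomeo_segment_far (c : E) {R a b : ℝ} (ha : 0 < a) (haR : a < R) (hb : 0 < b)
    (hbR : b < R) (q : E) (hq : R ≤ ‖q - c‖) :
    radHomeo c R a b ha haR hb hbR '' segment ℝ c q = segment ℝ c q := by
  have h := radHomeo_segment c ha haR hb hbR (q - c)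
  rw [gg_large ha haR hq, one_smul] at h
  simpa using h

theorem radHomeo_far (c : E) {R a b : ℝ} (ha : 0 < a) (haR : a < R) (hb : 0 < b)
    (hbR : b < R) (S : Set E) (hS : ∀ p ∈ S, R ≤ ‖p - c‖) :
    radHomeo c R a b ha haR hb hbR '' S = S := by
  ext q
  constructor
  · rintro ⟨p, hp, rfl⟩
    have : radHomeo c R a b ha haR hb hbR p = p := rad_far c ha haR (hS p hp)
    rw [this]; exact hp
  · intro hq
    exact ⟨q, hq, rad_far c ha haR (hS q hq)⟩

end Pool.Agent.R147.Radial
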