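import Mathlib
import Pool.Agent.R147.Radial

set_option autoImplicit false

/-!
For a polygon with short extra segments at the vertices there is a homeomorphism of the ambient
space which preserves every edge and rescales the extra segments.
-/

namespace Pool.Agent.R147.Radial

open Set

variable {E : Type*} [NormedAddCommGroup E] [NormedSpace ℝ E]

theorem exists_rescale {n : ℕ} (x : Fin n → E) (s : Equiv.Perm (Fin n)) (u : Fin n → E)
    (R : ℝ) (hR : 0 < R)
    (hfar : ∀ i j, j ≠ i → s j ≠ i → ∀ p ∈ segment ℝ (x j) (x (s j)), 2 * R ≤ ‖p - x i‖)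
    (hadj : ∀ i, 2 * R ≤ ‖x (s i) - x i‖) (hu : ∀ i, u i ≠ 0)
    (ε₁ ε₂ : ℝ) (h1 : 0 < ε₁) (h2 : 0 < ε₂) (h1u : ∀ i, ε₁ * ‖u i‖ < R)
    (h2u : ∀ i, ε₂ * ‖u i‖ < R) :
    ∃ h : E ≃ₜ E, (∀ j, h '' segment ℝ (x j) (x (s j)) = segment ℝ (x j) (x (s j))) ∧
      (∀ j, h (x j) = x j) ∧
      (∀ j, h '' segment ℝ (x j) (x j + ε₁ • u j) = segment ℝ (x j) (x j + ε₂ • u j)) ∧
      (∀ j, h (x j + ε₁ • u j) = x j + ε₂ • u j) := by
  classical
  have hupos : ∀ i, 0 < ‖u i‖ := fun i => norm_pos_iff.mpr (hu i)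
  -- distances between vertices
  have hvv : ∀ i j, j ≠ i → 2 * R ≤ ‖x j - x i‖ := by
    intro i j hij
    by_cases h : s j = i
    · have := hadj j
      rw [h, norm_sub_rev] at this
      exact this
    · exact hfar i j hij h _ (left_mem_segment ℝ _ _)
  -- one vertex
  have step : ∀ i, ∃ h : E ≃ₜ E,
      (∀ j, h '' segment ℝ (x j) (x (s j)) = segment ℝ (x j) (x (s j))) ∧
      (∀ j, h (x j) = x j) ∧
      (h '' segment ℝ (x i) (x i + ε₁ • u i) = segment ℝ (x i) (x i + ε₂ • u i)) ∧
      (h (x i + ε₁ • u i) = x i + ε₂ • u i) ∧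
      (∀ j, j ≠ i → ∀ e : ℝ, 0 < e → e * ‖u j‖ < R →
        h '' segment ℝ (x j) (x j + e • u j) = segment ℝ (x j) (x j + e • u j) ∧
        h (x j + e • u j) = x j + e • u j) := by
    intro i
    have ha : 0 < ε₁ * ‖u i‖ := mul_pos h1 (hupos i)
    have hb : 0 < ε₂ * ‖u i‖ := mul_pos h2 (hupos i)
    have haR := h1u i
    have hbR := h2u i
    have hgg : gg R (ε₁ * ‖u i‖) (ε₂ * ‖u i‖) ‖ε₁ • u i‖ • (ε₁ • u i) = ε₂ • u i := by
      rw [norm_smul, Real.norm_of_nonneg h1.le, gg_at haR ha, smul_smul]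
      congr 1
      have := (hupos i).ne'
      field_simp
    have hfarj : ∀ j, j ≠ i → ∀ e : ℝ, 0 < e → e * ‖u j‖ < R →
        ∀ p ∈ segment ℝ (x j) (x j + e • u j), R ≤ ‖p - x i‖ := by
      intro j hj e he heR p hp
      rw [segment_eq_image'] at hp
      obtain ⟨t, ⟨ht0, ht1⟩, rfl⟩ := hp
      simp only [add_sub_cancel_left]
      have e1 := hvv i j hj
      have e2 : ‖t • e • u j‖ ≤ R := by
        rw [norm_smul, norm_smul, Real.norm_of_nonneg ht0, Real.norm_of_nonneg he.le]
        exact (mul_le_of_le_one_left (by positivity) ht1).trans heR.le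
      have e3 : ‖x j - x i‖ ≤ ‖x j + t • e • u j - x i‖ + ‖t • e • u j‖ := by
        have : x j - x i = (x j + t • e • u j - x i) - t • e • u j := by abel
        rw [this]
        exact norm_sub_le _ _
      linarith
    refine ⟨radHomeo (x i) R (ε₁ * ‖u i‖) (ε₂ * ‖u i‖) ha haR hb hbR, ?_, ?_, ?_, ?_, ?_⟩
    · intro j
      by_cases hj : j = i
      · subst hj
        refine radHomeo_segment_far _ ha haR hb hbR _ ?_
        linarith [hadj j]
      · by_cases hj2 : s j = i
        · rw [segment_symm]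
          have := hvv i j hj
          rw [hj2]
          exact radHomeo_segment_far _ ha haR hb hbR _ (by linarith)
        · refine radHomeo_far _ ha haR hb hbR _ ?_
          intro p hp
          linarith [hfar i j hj hj2 p hp]
    · intro j
      by_cases hj : j = i
      · subst hj
        exact rad_center _
      · exact rad_far _ ha haR (by linarith [hvv i j hj])
    · rw [radHomeo_segment, hgg]
    · show rad (x i) R (ε₁ * ‖u i‖) (ε₂ * ‖u i‖) (x i + ε₁ • u i) = _
      unfold rad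
      rw [add_sub_cancel_left, hgg]
    · intro j hj e he heR
      refine ⟨radHomeo_far _ ha haR hb hbR _ (hfarj j hj e he heR), ?_⟩
      exact rad_far _ ha haR (hfarj j hj e he heR _ (right_mem_segment ℝ _ _))
  have main : ∀ t : Finset (Fin n), ∃ h : E ≃ₜ E,
      (∀ j, h '' segment ℝ (x j) (x (s j)) = segment ℝ (x j) (x (s j))) ∧
      (∀ j, h (x j) = x j) ∧
      (∀ j ∈ t, h '' segment ℝ (x j) (x j + ε₁ • u j) = segment ℝ (x j) (x j + ε₂ • u j) ∧
        h (x j + ε₁ • u j) = x j + ε₂ • u j) ∧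
      (∀ j, j ∉ t → h '' segment ℝ (x j) (x j + ε₁ • u j) = segment ℝ (x j) (x j + ε₁ • u j) ∧
        h (x j + ε₁ • u j) = x j + ε₁ • u j) := by
    intro t
    induction t using Finset.induction_on with
    | empty =>
      refine ⟨Homeomorph.refl E, ?_, ?_, ?_, ?_⟩ <;> simp
    | insert i t hit ih =>
      obtain ⟨h, a1, a2, a3, a4⟩ := ih
      obtain ⟨g, b1, b2, b3, b4, b5⟩ := step i
      have hco : (h.trans g : E → E) = (g : E → E) ∘ (h : E → E) := rfl
      refine ⟨h.trans g, ?_, ?_, ?_, ?_⟩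
      · intro j
        rw [hco, image_comp, a1, b1]
      · intro j
        rw [hco, Function.comp_apply, a2, b2]
      · intro j hj
        rw [hco, image_comp, Function.comp_apply]
        rcases Finset.mem_insert.mp hj with rfl | hj
        · rw [(a4 j hit).1, (a4 j hit).2]
          exact ⟨b3, b4⟩
        · have hne : j ≠ i := fun h => hit (h ▸ hj)
          rw [(a3 j hj).1, (a3 j hj).2]
          exact b5 j hne ε₂ h2 (h2u j)
      · intro j hj
        rw [Finset.mem_insert, not_or] at hj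
        rw [hco, image_comp, Function.comp_apply, (a4 j hj.2).1, (a4 j hj.2).2]
        exact b5 j hj.1 ε₁ h1 (h1u j)
  obtain ⟨h, a1, a2, a3, -⟩ := main Finset.univ
  exact ⟨h, a1, a2, fun j => (a3 j (Finset.mem_univ j)).1, fun j => (a3 j (Finset.mem_univ j)).2⟩

end Pool.Agent.R147.Radial
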